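import Pool.Agent.X207.EquiUniq

/-!
# MP_55235b_an : a renorming of `ℓ₂(ω₁)` without uncountable equilateral sets, in ZFC

For every index set `Γ` with at most continuum many elements, in particular for `Γ = ω₁`, the
space `ℓ₂(Γ)` has an equivalent norm for which every equilateral set is countable.
-/

open Filter Topology Set
open scoped RealInnerProductSpace

namespace Pool.Agent.Results.MP_55235b_an.NoUncountableEquilateral

noncomputable section

open Pool.Agent.X207.Equi

/-- `N` is a norm on the real normed space `X`, equivalent to the given norm. -/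
structure IsEquivalentNorm {X : Type*} [NormedAddCommGroup X] [NormedSpace ℝ X]
    (N : X → ℝ) : Prop where
  smul : ∀ (r : ℝ) (x : X), N (r • x) = |r| * N x
  add_le : ∀ x y : X, N (x + y) ≤ N x + N y
  equiv : ∃ c C : ℝ, 0 < c ∧ c ≤ C ∧ ∀ x : X, c * ‖x‖ ≤ N x ∧ N x ≤ C * ‖x‖

/-- A set is equilateral for `N` if for some `δ > 0` any two of its distinct points are at
`N`-distance exactly `δ`. -/
def IsEquilateral {X : Type*} [AddCommGroup X] (N : X → ℝ) (Y : Set X) : Prop :=
  ∃ δ : ℝ, 0 < δ ∧ ∀ y ∈ Y, ∀ y' ∈ Y, y ≠ y' → N (y - y') = δ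

/-! ### Coordinate restrictions -/

section restrict

variable {Γ : Type*}

local instance : Fact (1 ≤ (2 : ENNReal)) := ⟨by norm_num⟩

lemma summable_sq' (x : lp (fun _ : Γ => ℝ) 2) : Summable fun γ => (x γ) ^ 2 := by
  have := (lp.memℓp x).summable (by norm_num)
  simpa using this

lemma norm_sq_eq (x : lp (fun _ : Γ => ℝ) 2) : ‖x‖ ^ 2 = ∑' γ, (x γ) ^ 2 := by
  have := lp.norm_rpow_eq_tsum (p := 2) (by norm_num) x
  simpa using this

lemma memℓp_indicator (A : Set Γ) (x : lp (fun _ : Γ => ℝ) 2) :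
    Memℓp (fun γ => A.indicator (fun γ => x γ) γ) 2 := by
  refine memℓp_gen ?_
  refine Summable.of_nonneg_of_le (fun γ => by positivity) (fun γ => ?_) (summable_sq' x)
  by_cases h : γ ∈ A <;> simp [h, sq_nonneg]

/-- Restriction to the coordinates in `A`, as a linear map. -/
def restrictLin (A : Set Γ) : lp (fun _ : Γ => ℝ) 2 →ₗ[ℝ] lp (fun _ : Γ => ℝ) 2 where
  toFun x := ⟨fun γ => A.indicator (fun γ => x γ) γ, memℓp_indicator A x⟩
  map_add' x y := by
    ext γ
    change A.indicator (fun γ => (x + y) γ) γ =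
      A.indicator (fun γ => x γ) γ + A.indicator (fun γ => y γ) γ
    by_cases h : γ ∈ A <;> simp [h]
  map_smul' r x := by
    ext γ
    by_cases h : γ ∈ A <;> simp [h]

lemma restrictLin_apply (A : Set Γ) (x : lp (fun _ : Γ => ℝ) 2) (γ : Γ) :
    restrictLin A x γ = A.indicator (fun γ => x γ) γ := rfl

lemma restrictLin_sq (A : Set Γ) (x : lp (fun _ : Γ => ℝ) 2) :
    ‖restrictLin A x‖ ^ 2 = ∑' γ, A.indicator (fun γ => (x γ) ^ 2) γ := by
  rw [norm_sq_eq]
  congr 1
  ext γ
  rw [restrictLin_apply]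
  by_cases h : γ ∈ A <;> simp [h]

lemma restrictLin_norm_le (A : Set Γ) (x : lp (fun _ : Γ => ℝ) 2) : ‖restrictLin A x‖ ≤ ‖x‖ := by
  have h : ‖restrictLin A x‖ ^ 2 ≤ ‖x‖ ^ 2 := by
    rw [restrictLin_sq, norm_sq_eq]
    refine ((summable_sq' x).indicator A).tsum_le_tsum ?_ (summable_sq' x)
    intro γ
    by_cases h : γ ∈ A <;> simp [h, sq_nonneg]
  exact le_of_pow_le_pow_left₀ (by norm_num) (norm_nonneg _) h

/-- Restriction to the coordinates in `A`, as a continuous linear map. -/
def restrict (A : Set Γ) : lp (fun _ : Γ => ℝ) 2 →L[ℝ] lp (fun _ : Γ => ℝ) 2 :=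
  (restrictLin A).mkContinuous 1 (fun x => by rw [one_mul]; exact restrictLin_norm_le A x)

lemma restrict_norm_le (A : Set Γ) (x : lp (fun _ : Γ => ℝ) 2) : ‖restrict A x‖ ≤ ‖x‖ :=
  restrictLin_norm_le A x

lemma restrict_sq (A : Set Γ) (x : lp (fun _ : Γ => ℝ) 2) :
    ‖restrict A x‖ ^ 2 = ∑' γ, A.indicator (fun γ => (x γ) ^ 2) γ :=
  restrictLin_sq A x

end restrict

/-- A nonnegative summable family on a set of reals is determined by its sums over the open
rational intervals. -/
lemma determined {Γ : Type*} {t : Γ → ℝ} (ht : Function.Injective t) {b b' : Γ → ℝ}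
    (hb : Summable b) (hb' : Summable b')
    (h : ∀ p q : ℚ, ∑' γ, (t ⁻¹' Ioo (p : ℝ) q).indicator b γ =
      ∑' γ, (t ⁻¹' Ioo (p : ℝ) q).indicator b' γ) (γ₀ : Γ) : b γ₀ = b' γ₀ := by
  have hp : ∀ k : ℕ, ∃ p : ℚ, t γ₀ - 1 / ((k : ℝ) + 1) < p ∧ (p : ℝ) < t γ₀ := fun k =>
    exists_rat_btwn (by have : (0 : ℝ) < 1 / ((k : ℝ) + 1) := by positivity
                        linarith)
  have hq : ∀ k : ℕ, ∃ q : ℚ, t γ₀ < q ∧ (q : ℝ) < t γ₀ + 1 / ((k : ℝ) + 1) := fun k =>
    exists_rat_btwn (by have : (0 : ℝ) < 1 / ((k : ℝ) + 1) := by positivity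
                        linarith)
  choose p hp1 hp2 using hp
  choose q hq1 hq2 using hq
  have key : ∀ c : Γ → ℝ, Summable c →
      Tendsto (fun k => ∑' γ, (t ⁻¹' Ioo (p k : ℝ) (q k)).indicator c γ) atTop (𝓝 (c γ₀)) := by
    intro c hc
    have e : ∑' γ, ({γ₀} : Set Γ).indicator c γ = c γ₀ := by
      rw [tsum_eq_single γ₀]
      · simp
      · intro γ hγ
        simp [hγ]
    rw [← e]
    refine tendsto_tsum_of_dominated_convergence (bound := fun γ => |c γ|) hc.abs ?_ ?_
    · intro γ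
      by_cases hγ : γ = γ₀
      · subst hγ
        have : ∀ k, (t ⁻¹' Ioo (p k : ℝ) (q k)).indicator c γ = c γ := fun k =>
          indicator_of_mem (show γ ∈ t ⁻¹' Ioo (p k : ℝ) (q k) from ⟨hp2 k, hq1 k⟩) c
        simp only [this]
        simp
      · have hne : t γ ≠ t γ₀ := fun h => hγ (ht h)
        have hpos : 0 < |t γ - t γ₀| := abs_pos.2 (sub_ne_zero.2 hne)
        obtain ⟨K, hK⟩ := exists_nat_one_div_lt hpos
        have : ∀ᶠ k in atTop, (t ⁻¹' Ioo (p k : ℝ) (q k)).indicator c γ = 0 := by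
          filter_upwards [eventually_ge_atTop K] with k hk
          apply indicator_of_notMem
          intro hmem
          have hk1 : 1 / ((k : ℝ) + 1) ≤ 1 / ((K : ℝ) + 1) := by
            apply one_div_le_one_div_of_le (by positivity)
            have : (K : ℝ) ≤ k := by exact_mod_cast hk
            linarith
          have h1 := hmem.1
          have h2 := hmem.2
          have h3 : |t γ - t γ₀| < 1 / ((k : ℝ) + 1) := by
            rw [abs_lt]
            constructor <;> linarith [hp1 k, hq2 k]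
          linarith
        have h0 : ({γ₀} : Set Γ).indicator c γ = 0 := by simp [hγ]
        rw [h0]
        exact tendsto_const_nhds.congr' (this.mono fun k hk => hk.symm)
    · refine Eventually.of_forall fun k γ => ?_
      rw [Real.norm_eq_abs]
      by_cases hm : γ ∈ t ⁻¹' Ioo (p k : ℝ) (q k)
      · rw [indicator_of_mem hm]
      · rw [indicator_of_notMem hm, abs_zero]
        exact abs_nonneg _
  have h1 := key b hb
  have h2 := key b' hb'
  simp_rw [h] at h1
  exact tendsto_nhds_unique h1 h2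

/-- The main construction, for an injectively real-indexed family of coordinates. -/
theorem main {Γ : Type*} {t : Γ → ℝ} (ht : Function.Injective t) :
    ∃ N : lp (fun _ : Γ => ℝ) 2 → ℝ, IsEquivalentNorm N ∧
      ∀ Y : Set (lp (fun _ : Γ => ℝ) 2), IsEquilateral N Y → Y.Countable := by
  obtain ⟨e, he⟩ := exists_surjective_nat (ℚ × ℚ)
  let P : ℕ → lp (fun _ : Γ => ℝ) 2 →L[ℝ] lp (fun _ : Γ => ℝ) 2 :=
    fun n => restrict (t ⁻¹' Ioo ((e n).1 : ℝ) (e n).2)
  have hP : ∀ n x, ‖P n x‖ ≤ ‖x‖ := fun n x => restrict_norm_le _ x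
  refine ⟨N P, ⟨N_smul hP, N_add_le hP, 1 / 2, 1, by norm_num, by norm_num, fun x =>
    ⟨le_N hP x, by rw [one_mul]; exact N_le hP x⟩⟩, ?_⟩
  rintro Y ⟨δ, hδ, hY⟩
  by_contra hYc
  have hinf : Infinite Y := by
    by_contra hfin
    rw [not_infinite_iff_finite] at hfin
    exact hYc (Set.toFinite Y).countable
  obtain ⟨y₀⟩ : Nonempty Y := inferInstance
  let f : Y → lp (fun _ : Γ => ℝ) 2 := fun y => y
  have hbd : ∀ i, ‖f i‖ ≤ ‖(y₀ : lp (fun _ : Γ => ℝ) 2)‖ + 2 * δ := by
    intro i
    by_cases hi : i = y₀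
    · subst hi
      change ‖(i : lp (fun _ : Γ => ℝ) 2)‖ ≤ _
      linarith
    · have h1 := hY i i.2 y₀ y₀.2 (fun h => hi (Subtype.ext h))
      have h2 := le_N hP ((i : lp (fun _ : Γ => ℝ) 2) - y₀)
      have h3 := norm_le_norm_add_norm_sub' (i : lp (fun _ : Γ => ℝ) 2) y₀
      change ‖(i : lp (fun _ : Γ => ℝ) 2)‖ ≤ _
      linarith
  have hf : ∀ i j, i ≠ j → Q P (f i - f j) = δ ^ 4 := by
    intro i j hij
    rw [← N_pow hP]
    congr 1
    exact hY i i.2 j j.2 (fun h => hij (Subtype.ext h))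
  obtain ⟨z, s, a, L⟩ := exists_Lim_cofinite hP hbd (by positivity : 0 < δ ^ 4) hf
  have hcount : ∀ n, {i : Y | ‖P n (f i - z)‖ ^ 2 ≠ a n}.Countable := by
    intro n
    have := (L.ta n).countable_compl_preimage_ker
    simpa [ker_nhds, Set.preimage, Set.compl_def] using this
  have hbad : {i : Y | ∃ n, ‖P n (f i - z)‖ ^ 2 ≠ a n}.Countable := by
    have : {i : Y | ∃ n, ‖P n (f i - z)‖ ^ 2 ≠ a n} = ⋃ n, {i : Y | ‖P n (f i - z)‖ ^ 2 ≠ a n} := by
      ext i; simp
    rw [this]
    exact countable_iUnion hcount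
  set G : Set Y := {i : Y | ∀ n, ‖P n (f i - z)‖ ^ 2 = a n} with hG
  have hGc : Gᶜ.Countable := by
    refine hbad.mono ?_
    intro i hi
    simpa [hG] using hi
  have hGinf : G.Infinite := by
    intro hfin
    apply hYc
    have h1 : (Set.univ : Set Y).Countable := by
      rw [← Set.union_compl_self G]
      exact hfin.countable.union hGc
    have h2 : Countable Y := Set.countable_univ_iff.1 h1
    exact h2
  -- all good points have the same absolute values of coordinates
  have hsame : ∀ i ∈ G, ∀ j ∈ G, ∀ γ, ((f i - z) γ) ^ 2 = ((f j - z) γ) ^ 2 := by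
    intro i hi j hj
    refine determined ht (summable_sq' (f i - z)) (summable_sq' (f j - z)) ?_
    intro p q
    obtain ⟨n, hn⟩ := he (p, q)
    have h1 := hi n
    have h2 := hj n
    simp only [P, hn, restrict_sq] at h1 h2
    rw [h1, h2]
  obtain ⟨i, hi, j, hj, hij⟩ := hGinf.nontrivial
  have hzero : ∀ k ∈ G, f k = z := by
    intro k hk
    rw [← sub_eq_zero]
    ext γ
    have h1 : Tendsto (fun i => (f i) γ) cofinite (𝓝 (z γ)) := by
      classical
      have := L.weak (lp.single 2 γ (1 : ℝ))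
      simpa [lp.inner_single_right] using this
    have h2 : Tendsto (fun i => ((f i - z) γ) ^ 2) cofinite (𝓝 0) := by
      have := (h1.sub_const (z γ)).pow 2
      simpa using this
    have hne : NeBot (cofinite ⊓ 𝓟 G) := by
      rw [cofinite_inf_principal_neBot_iff]
      exact hGinf
    have h3 : Tendsto (fun i => ((f i - z) γ) ^ 2) (cofinite ⊓ 𝓟 G) (𝓝 (((f k - z) γ) ^ 2)) := by
      refine tendsto_const_nhds.congr' ?_
      rw [EventuallyEq, eventually_inf_principal]
      exact Eventually.of_forall fun i hi => hsame k hk i hi γ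
    have h4 := tendsto_nhds_unique h3 (h2.mono_left inf_le_left)
    have h5 := pow_eq_zero_iff (two_ne_zero) |>.1 h4
    simpa using h5
  apply hij
  apply Subtype.ext
  exact (hzero i hi).trans (hzero j hj).symm

/-- **Main theorem.** In ZFC, `ℓ₂(ω₁)` has an equivalent norm for which every equilateral set is
countable; more generally this holds for `ℓ₂(Γ)` for every set `Γ` of cardinality at most the
continuum. -/
theorem result :
    (∃ N : lp (fun _ : Set.Iio (Ordinal.omega.{0} 1) => ℝ) 2 → ℝ, IsEquivalentNorm N ∧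
      ∀ Y : Set (lp (fun _ : Set.Iio (Ordinal.omega.{0} 1) => ℝ) 2),
        IsEquilateral N Y → Y.Countable) ∧
    ∀ Γ : Type, Cardinal.mk Γ ≤ Cardinal.continuum →
      ∃ N : lp (fun _ : Γ => ℝ) 2 → ℝ, IsEquivalentNorm N ∧
        ∀ Y : Set (lp (fun _ : Γ => ℝ) 2), IsEquilateral N Y → Y.Countable := by
  constructor
  · have h : Cardinal.lift.{0} (Cardinal.mk (Set.Iio (Ordinal.omega.{0} 1))) ≤
        Cardinal.lift.{1} (Cardinal.mk ℝ) := by
      rw [Cardinal.mk_Iio_ordinal, Ordinal.card_omega, Cardinal.mk_real]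
      simp only [Cardinal.lift_aleph, Cardinal.lift_continuum, Ordinal.lift_one]
      exact Cardinal.aleph_one_le_continuum
    obtain ⟨t⟩ := Cardinal.lift_mk_le'.1 h
    exact main t.injective
  · intro Γ hΓ
    rw [← Cardinal.mk_real, Cardinal.le_def] at hΓ
    obtain ⟨t⟩ := hΓ
    exact main t.injective

end

end Pool.Agent.Results.MP_55235b_an.NoUncountableEquilateral
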